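import Pool.Agent.H61.KW.TA

set_option autoImplicit false

/-!
# MP_c11ac4_gt, board kw_modules, row FIN: the intersection of two faces is a face
-/

open Set

namespace Pool.Agent.H65.KW.FIN

open Pool.Agent.H61.KV Pool.Agent.H61.KW

theorem pf_FIN : T_FIN := by
  intro V _ _ _ C p p' hC hp hp'
  -- a point of both faces of maximal rank
  obtain ⟨r, ⟨hr1, hr2⟩, hmax⟩ : ∃ r, (r ∈ Fc C p ∧ r ∈ Fc C p') ∧
      ∀ s, (s ∈ Fc C p ∧ s ∈ Fc C p') → rk C s ≤ rk C r := by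
    classical
    let P : ℕ → Prop := fun n => ∃ s, (s ∈ Fc C p ∧ s ∈ Fc C p') ∧ rk C s = n
    have h0 : P (Nat.findGreatest P (Module.finrank ℝ V)) := by
      refine Nat.findGreatest_spec (m := rk C (0 : V)) ?_ ?_
      · exact Submodule.finrank_le _
      · exact ⟨0, ⟨zero_fc hC hp, zero_fc hC hp'⟩, rfl⟩
    obtain ⟨r, hr, hrk⟩ := h0
    refine ⟨r, hr, ?_⟩
    intro s hs
    rw [hrk]
    exact Nat.le_findGreatest (Submodule.finrank_le _) ⟨s, hs, rfl⟩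
  have hrC : r ∈ C := mem_C hr1
  refine ⟨r, hrC, fun s => ⟨fun h => ⟨tra hC hp hr1 h, tra hC hp' hr2 h⟩, ?_⟩⟩
  rintro ⟨h1, h2⟩
  have hsC : s ∈ C := mem_C h1
  have hsum : r + s ∈ C := hC.add r hrC s hsC
  have h3 : rk C (r + s) ≤ rk C r := hmax _ ⟨add_fc hC hp hr1 h1, add_fc hC hp' hr2 h2⟩
  have h4 : r + s ∈ Fc C r := of_rk hC hsum (left_fc hC hrC hsC) h3
  exact ((add_iff hC hrC hrC hsC).1 h4).2

end Pool.Agent.H65.KW.FIN
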